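import Pool.Agent.helper35.BQ.Spec

set_option autoImplicit false

/-!
# Project bq, row PWR: powers of class sums
-/

open Pool.Agent.helper58.DC Pool.Agent.DI Pool.Agent.DR Pool.Agent.NQ

namespace Pool.Agent.BQ

open Classical in
/-- The class sum of `y`. -/
noncomputable def PWR_z {Γ : Type} [Group Γ] (y : Γ) : Γ → ℂ :=
  fun x => if x ∈ conjugatesOf y then (1 : ℂ) else 0

open Classical in
/-- The powers of the class sum of `y`. -/
noncomputable def PWR_zz {Γ : Type} [Group Γ] (y : Γ) : ℕ → (Γ → ℂ)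
  | 0 => fun x => if x = 1 then 1 else 0
  | m + 1 => cv (PWR_z y) (PWR_zz y m)

open Classical in
theorem PWR_supp {Γ : Type} [Group Γ] (G' : Subgroup Γ) (hN : G'.Normal)
    (hab : ∀ x y : Γ, x * y * x⁻¹ * y⁻¹ ∈ G') (y : Γ) :
    ∀ (m : ℕ) (x : Γ), PWR_zz y m x ≠ 0 → (y ^ m)⁻¹ * x ∈ G' := by
  intro m
  induction m with
  | zero =>
    intro x hx
    have h1 : x = 1 := by
      by_contra h
      apply hx
      show (if x = 1 then (1 : ℂ) else 0) = 0
      rw [if_neg h]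
    rw [h1, pow_zero, inv_one, one_mul]
    exact G'.one_mem
  | succ m ih =>
    intro g hg
    have h1 : ∃ x : Γ, PWR_z y x * PWR_zz y m (x⁻¹ * g) ≠ 0 := by
      by_contra h
      push Not at h
      apply hg
      show ∑ᶠ x, PWR_z y x * PWR_zz y m (x⁻¹ * g) = 0
      rw [finsum_congr h, finsum_zero]
    obtain ⟨x, hx⟩ := h1
    have h2 : PWR_z y x ≠ 0 := left_ne_zero_of_mul hx
    have h3 : PWR_zz y m (x⁻¹ * g) ≠ 0 := right_ne_zero_of_mul hx
    have h4 : x ∈ conjugatesOf y := by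
      by_contra h
      apply h2
      show (if x ∈ conjugatesOf y then (1 : ℂ) else 0) = 0
      rw [if_neg h]
    obtain ⟨c, hc⟩ := isConj_iff.1 (show IsConj y x from h4)
    have h5 : y⁻¹ * x ∈ G' := by
      have h := hab y⁻¹ c
      rw [inv_inv] at h
      rw [← hc]
      have e : y⁻¹ * (c * y * c⁻¹) = y⁻¹ * c * y * c⁻¹ := by group
      rw [e]
      exact h
    have h6 := ih _ h3
    have h7 := hN.conj_mem _ h5 (y ^ m)⁻¹
    have e : (y ^ (m + 1))⁻¹ * g =
        ((y ^ m)⁻¹ * (y⁻¹ * x) * ((y ^ m)⁻¹)⁻¹) * ((y ^ m)⁻¹ * (x⁻¹ * g)) := by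
      rw [pow_succ']
      group
    rw [e]
    exact G'.mul_mem h7 h6

open Classical in
theorem PWR_ZO {Γ : Type} [Group Γ] [Finite Γ] (hC3 : C3_stmt) (hC4 : C4_stmt) (y : Γ) :
    IsZO (PWR_z y) ∧ ∀ m, IsZO (PWR_zz y m) := by
  have hz : IsZO (PWR_z y) := ((hC3 Γ).2.1 (fun _ => 1) y).2
  refine ⟨hz, ?_⟩
  intro m
  induction m with
  | zero =>
    constructor
    · intro x c
      show (if c * x * c⁻¹ = 1 then (1 : ℂ) else 0) = if x = 1 then (1 : ℂ) else 0
      by_cases hx : x = 1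
      · rw [if_pos hx, if_pos]
        rw [hx]
        group
      · rw [if_neg hx, if_neg]
        intro h
        apply hx
        have h8 : x = c⁻¹ * (c * x * c⁻¹) * c := by group
        rw [h8, h]
        group
    · intro x
      show IsIntegral ℤ (if x = 1 then (1 : ℂ) else 0)
      split_ifs
      · exact isIntegral_one
      · exact isIntegral_zero
  | succ m ih => exact ((hC4 Γ).2.1 _ _ hz ih).1

open Classical in
theorem PWR_cc {Γ : Type} [Group Γ] [Finite Γ] (hC3 : C3_stmt) (hC4 : C4_stmt) (hB1 : B1_stmt)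
    (φ : Γ → ℂ) (hφ : φ ∈ Irr Γ) (y : Γ) : ∀ m, cc φ (PWR_zz y m) = omega φ y ^ m := by
  have h1 : φ 1 ≠ 0 := by
    obtain ⟨n, hn, hn1, -⟩ := ((hB1 Γ).2 φ hφ).1
    rw [hn1]
    exact_mod_cast hn.ne'
  intro m
  induction m with
  | zero =>
    rw [pow_zero]
    unfold cc
    have h2 : ∑ᶠ x, PWR_zz y 0 x * φ x = φ 1 := by
      rw [finsum_eq_single _ (1 : Γ)]
      · show (if (1 : Γ) = 1 then (1 : ℂ) else 0) * φ 1 = φ 1
        rw [if_pos rfl, one_mul]
      · intro x hx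
        show (if x = 1 then (1 : ℂ) else 0) * φ x = 0
        rw [if_neg hx, zero_mul]
    rw [h2, div_self h1]
  | succ m ih =>
    show cc φ (cv (PWR_z y) (PWR_zz y m)) = _
    rw [(hC4 Γ).2.2 φ hφ _ _ (PWR_ZO hC3 hC4 y).1, ih, pow_succ']
    congr 1
    exact (((hC3 Γ).2.1 φ y).1).symm

theorem PWR (hC1 : C1_stmt) (hC3 : C3_stmt) (hC4 : C4_stmt) (hB1 : B1_stmt) (hTI : TI_stmt)
    (hCMP : CMP_stmt) : PWR_stmt := by
  intro Γ _ _ p _ M hM hp G' hN hab φ hφ φ' hφ' hcong y hy hy'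
  obtain ⟨-, hsymm, htrans, -, hmul, hprime, -, -, -, -⟩ := hC1 p M hM hp
  have hint : ∀ ψ ∈ Irr Γ, IsIntegral ℤ (omega ψ y) := fun ψ hψ =>
    (hC3 Γ).2.2.2 ⊤ ψ ((hTI Γ ψ).2 hψ) y
  have hm : 0 < orderOf y := orderOf_pos y
  have hsupp : ∀ x, x ∉ G' → PWR_zz y (orderOf y) x = 0 := by
    intro x hx
    by_contra h
    apply hx
    have h1 := PWR_supp G' hN hab y (orderOf y) x h
    rw [pow_orderOf_eq_one, inv_one, one_mul] at h1
    exact h1
  have h1 := hCMP Γ p M hM hp G' hN φ φ' hcong _ ((PWR_ZO hC3 hC4 y).2 (orderOf y)) hsupp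
  rw [PWR_cc hC3 hC4 hB1 φ hφ, PWR_cc hC3 hC4 hB1 φ' hφ'] at h1
  obtain ⟨k, hk⟩ : ∃ k, orderOf y = k + 1 := ⟨orderOf y - 1, by omega⟩
  rw [hk] at h1
  have h2 : Mcong M (omega φ' y ^ (k + 1)) 0 := by
    have h := hmul (omega φ' y) 0 (omega φ' y ^ k) ((hint φ' hφ').pow k) hy'
    rw [mul_zero, ← pow_succ] at h
    exact h
  have h3 : Mcong M (omega φ y ^ (k + 1)) 0 := htrans _ _ _ h1 h2
  have h4 : ∀ j : ℕ, Mcong M (omega φ y ^ (j + 1)) 0 → Mcong M (omega φ y) 0 := by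
    intro j
    induction j with
    | zero =>
      intro h
      rw [zero_add, pow_one] at h
      exact h
    | succ j ih =>
      intro h
      rw [pow_succ] at h
      rcases hprime _ _ ((hint φ hφ).pow (j + 1)) (hint φ hφ) h with h | h
      · exact ih h
      · exact h
  exact hy (h4 k h3)

end Pool.Agent.BQ
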