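import Pool.Agent.helper28.BQ.SpecC

/-!
# BQ, module TYP: the Tate condition in terms of the types
-/

open scoped BigOperators ComplexConjugate
open NumberField

namespace BQ

/-! ## partial sums -/

theorem TYP_psum_zero {m k : ℕ} (a : Fin k → ZMod m) : psum a 0 = 0 := by
  simp [psum]

theorem TYP_psum_last {m k : ℕ} (a : Fin k → ZMod m) : psum a k = ∑ i, a i := by
  unfold psum
  rw [Finset.filter_true_of_mem]
  intro i _
  exact i.2

theorem TYP_psum_succ {m k : ℕ} (a : Fin k → ZMod m) (j : Fin k) :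
    psum a ((j : ℕ) + 1) = psum a j + a j := by
  unfold psum
  have : Finset.univ.filter (fun i : Fin k => (i : ℕ) < (j : ℕ) + 1) =
      insert j (Finset.univ.filter (fun i : Fin k => (i : ℕ) < (j : ℕ))) := by
    ext i
    simp only [Finset.mem_filter, Finset.mem_univ, true_and, Finset.mem_insert]
    constructor
    · intro h
      rcases Nat.lt_succ_iff_lt_or_eq.mp h with h | h
      · exact Or.inr h
      · exact Or.inl (Fin.ext h)
    · rintro (rfl | h)
      · exact Nat.lt_succ_self _
      · exact Nat.lt_succ_of_lt h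
  rw [this, Finset.sum_insert, add_comm]
  simp

/-- telescoping for functions on the natural numbers -/
theorem TYP_tele (k : ℕ) (g : ℕ → ℕ) (h : g 0 = g k) :
    ∑ j : Fin k, g ((j : ℕ) + 1) = ∑ j : Fin k, g (j : ℕ) := by
  rw [← Finset.sum_range (fun i => g (i + 1)), ← Finset.sum_range g]
  have h1 := Finset.sum_range_succ g k
  have h2 := Finset.sum_range_succ' g k
  omega

/-! ## residues -/

theorem TYP_val_neg {m : ℕ} [NeZero m] {x : ZMod m} (hx : x ≠ 0) : (-x).val + x.val = m := by
  have := ZMod.neg_val x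
  rw [if_neg hx] at this
  have h := ZMod.val_lt x
  omega

theorem TYP_three {m : ℕ} [NeZero m] {x y z : ZMod m} (h : x + y = z) (hz : z ≠ 0) :
    (x.val + y.val + (-z).val = m ∧ x.val + y.val = z.val) ∨
      (x.val + y.val + (-z).val ≠ m ∧ x.val + y.val = z.val + m) := by
  have h1 := TYP_val_neg hz
  have hzl := ZMod.val_lt z
  have hm : 0 < m := Nat.pos_of_ne_zero (NeZero.ne m)
  rcases Nat.lt_or_ge (x.val + y.val) m with h2 | h2
  · left
    have := ZMod.val_add_of_lt h2
    rw [h] at this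
    omega
  · right
    have := ZMod.val_add_val_of_le h2
    rw [h] at this
    omega

open scoped Classical in
/-- the main count -/
theorem TYP_count {m k : ℕ} [NeZero m] (a : Fin k → ZMod m) (ha : ∀ i, a i ≠ 0)
    (h0 : ∑ i, a i = 0) (t : (ZMod m)ˣ) :
    2 * ∑ i, ((t : ZMod m) * a i).val + 2 * m *
      ((Finset.univ.filter (fun j : Fin k => psum a j ≠ 0 ∧ psum a ((j : ℕ) + 1) ≠ 0)).filter
        (fun j : Fin k => ((t : ZMod m) * psum a j).val + ((t : ZMod m) * a j).val +
          ((t : ZMod m) * (-(psum a ((j : ℕ) + 1)))).val = m)).card =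
    m * (k + (Finset.univ.filter
      (fun j : Fin k => psum a j ≠ 0 ∧ psum a ((j : ℕ) + 1) ≠ 0)).card) := by
  set v : ℕ → ℕ := fun j => ((t : ZMod m) * psum a j).val with hv
  set J := Finset.univ.filter (fun j : Fin k => psum a j ≠ 0 ∧ psum a ((j : ℕ) + 1) ≠ 0) with hJ
  set P : Fin k → Prop := fun j => ((t : ZMod m) * psum a j).val + ((t : ZMod m) * a j).val +
          ((t : ZMod m) * (-(psum a ((j : ℕ) + 1)))).val = m with hP
  have hv0 : v 0 = v k := by
    simp only [hv, TYP_psum_zero, TYP_psum_last, h0]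
  have htele := TYP_tele k v hv0
  -- number of zeros
  set z : ℕ → ℕ := fun j => if psum a j = 0 then 1 else 0 with hz
  have hz0 : z 0 = z k := by
    simp only [hz, TYP_psum_zero, TYP_psum_last, h0]
  have hztele := TYP_tele k z hz0
  have hmul0 : ∀ x : ZMod m, (t : ZMod m) * x = 0 ↔ x = 0 := fun x => Units.mul_right_eq_zero t
  -- pointwise identity
  have hpt : ∀ j : Fin k, v j + ((t : ZMod m) * a j).val +
      m * (if j ∈ J ∧ P j then 1 else 0) + m * z j = v ((j : ℕ) + 1) + m := by
    intro j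
    have hs := TYP_psum_succ a j
    by_cases h1 : psum a j = 0
    · have h3 : psum a ((j : ℕ) + 1) = a j := by rw [hs, h1, zero_add]
      have h2 : j ∉ J := by simp [hJ, h1]
      simp only [hv, hz, h1, h3, h2, false_and, if_false, if_true, mul_zero, ZMod.val_zero]
      omega
    · by_cases h3 : psum a ((j : ℕ) + 1) = 0
      · have h2 : j ∉ J := by simp [hJ, h3]
        have h4 : (t : ZMod m) * psum a j = -((t : ZMod m) * a j) := by
          have : psum a j = - a j := by
            rw [h3] at hs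
            exact eq_neg_of_add_eq_zero_left hs.symm
          rw [this]; ring
        have h5 : (t : ZMod m) * a j ≠ 0 := fun h => ha j ((hmul0 _).mp h)
        have h6 := TYP_val_neg h5
        simp only [hv, hz, h1, h3, h2, false_and, if_false, mul_zero, ZMod.val_zero, h4]
        omega
      · have h2 : j ∈ J := by simp [hJ, h1, h3]
        have h5 : (t : ZMod m) * a j ≠ 0 := fun h => ha j ((hmul0 _).mp h)
        have h6 : (t : ZMod m) * psum a j ≠ 0 := fun h => h1 ((hmul0 _).mp h)
        have h7 : (t : ZMod m) * psum a ((j : ℕ) + 1) ≠ 0 := fun h => h3 ((hmul0 _).mp h)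
        have h8 : (t : ZMod m) * psum a j + (t : ZMod m) * a j =
            (t : ZMod m) * psum a ((j : ℕ) + 1) := by rw [hs]; ring
        have h9 := TYP_three h8 h7
        have h10 : (t : ZMod m) * (-(psum a ((j : ℕ) + 1))) =
            -((t : ZMod m) * psum a ((j : ℕ) + 1)) := by ring
        simp only [hv, hz, hP, h1, h2, true_and, if_false, mul_zero, h10]
        rcases h9 with ⟨h11, h12⟩ | ⟨h11, h12⟩
        · rw [if_pos h11]; omega
        · rw [if_neg h11]; omega
  have hsum := Finset.sum_congr (rfl : (Finset.univ : Finset (Fin k)) = Finset.univ)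
    (fun j _ => hpt j)
  simp only [Finset.sum_add_distrib, ← Finset.mul_sum, Finset.sum_const, Finset.card_univ,
    Fintype.card_fin, smul_eq_mul] at hsum
  -- count of the indices
  have hcnt : ∀ j : Fin k, (if j ∈ J then 1 else 0) + z j + z ((j : ℕ) + 1) = 1 := by
    intro j
    have hs := TYP_psum_succ a j
    by_cases h1 : psum a j = 0
    · have h3 : psum a ((j : ℕ) + 1) = a j := by rw [hs, h1, zero_add]
      simp [hz, hJ, h1, h3, ha j]
    · by_cases h3 : psum a ((j : ℕ) + 1) = 0
      · simp [hz, hJ, h1, h3]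
      · simp [hz, hJ, h1, h3]
  have hcs := Finset.sum_congr (rfl : (Finset.univ : Finset (Fin k)) = Finset.univ)
    (fun j _ => hcnt j)
  simp only [Finset.sum_add_distrib, Finset.sum_const, Finset.card_univ,
    Fintype.card_fin, smul_eq_mul, mul_one] at hcs
  have hcJ : ∑ j : Fin k, (if j ∈ J then 1 else 0) = J.card := by
    rw [Finset.sum_boole]
    simp
  have hcP : ∑ j : Fin k, (if j ∈ J ∧ P j then 1 else 0) = (J.filter P).card := by
    rw [Finset.sum_boole]
    have : Finset.univ.filter (fun j : Fin k => j ∈ J ∧ P j) = J.filter P := by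
      ext j; simp
    rw [this]; simp
  rw [hcJ] at hcs
  rw [hcP] at hsum
  set A := ∑ i, ((t : ZMod m) * a i).val
  set Z := ∑ j : Fin k, z (j : ℕ)
  rw [hztele] at hcs
  rw [htele] at hsum
  have hk : J.card + 2 * Z = k := by omega
  have h13 : A + m * (J.filter P).card + m * Z = k * m := by omega
  calc 2 * A + 2 * m * (J.filter P).card
      = 2 * (A + m * (J.filter P).card + m * Z) - 2 * (m * Z) := by
        rw [eq_comm]; apply Nat.sub_eq_of_eq_add; ring
    _ = 2 * (k * m) - 2 * (m * Z) := by rw [h13]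
    _ = m * (k + J.card) := by
        apply Nat.sub_eq_of_eq_add
        have h14 : 2 * (k * m) = 2 * ((J.card + 2 * Z) * m) := by rw [hk]
        have h15 : m * (k + J.card) = m * (J.card + 2 * Z + J.card) := by rw [hk]
        rw [h14, h15]; ring

/-! ## embeddings of the cyclotomic field -/

/-- the embedding attached to a unit -/
theorem TYP_exists_emb (m : ℕ) [NeZero m] (t : (ZMod m)ˣ) :
    ∃ f : CyclotomicField m ℚ →+* ℂ,
      f (IsCyclotomicExtension.zeta m ℚ (CyclotomicField m ℚ)) =
      Complex.exp (2 * Real.pi * Complex.I * ((t : ZMod m).val : ℂ) / (m : ℂ)) := by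
  have hm : m ≠ 0 := NeZero.ne m
  have hζ := IsCyclotomicExtension.zeta_spec m ℚ (CyclotomicField m ℚ)
  have hp : IsPrimitiveRoot
      (Complex.exp (2 * Real.pi * Complex.I * ((t : ZMod m).val : ℂ) / (m : ℂ))) m := by
    have h := Complex.isPrimitiveRoot_exp_of_coprime (t : ZMod m).val m hm
      (ZMod.val_coe_unit_coprime t)
    convert h using 2
    ring
  have hirr := Polynomial.cyclotomic.irreducible_rat (Nat.pos_of_ne_zero hm)
  let e := hζ.embeddingsEquivPrimitiveRoots ℂ hirr
  have hmem : (Complex.exp (2 * Real.pi * Complex.I * ((t : ZMod m).val : ℂ) / (m : ℂ))) ∈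
      primitiveRoots m ℂ := (mem_primitiveRoots (Nat.pos_of_ne_zero hm)).mpr hp
  refine ⟨(e.symm ⟨_, hmem⟩).toRingHom, ?_⟩
  have h := hζ.embeddingsEquivPrimitiveRoots_apply_coe ℂ hirr (e.symm ⟨_, hmem⟩)
  have h2 : e (e.symm ⟨_, hmem⟩) = ⟨_, hmem⟩ := e.apply_symm_apply _
  change ((e (e.symm ⟨_, hmem⟩) : primitiveRoots m ℂ) : ℂ) = _ at h
  rw [h2] at h
  exact h.symm

/-- the unit attached to an embedding -/
theorem TYP_exists_unit (m : ℕ) [NeZero m] (f : CyclotomicField m ℚ →+* ℂ) :
    ∃ t : (ZMod m)ˣ, f (IsCyclotomicExtension.zeta m ℚ (CyclotomicField m ℚ)) =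
      Complex.exp (2 * Real.pi * Complex.I * ((t : ZMod m).val : ℂ) / (m : ℂ)) := by
  have hm : m ≠ 0 := NeZero.ne m
  have hζ := IsCyclotomicExtension.zeta_spec m ℚ (CyclotomicField m ℚ)
  have h1 : IsPrimitiveRoot (f (IsCyclotomicExtension.zeta m ℚ (CyclotomicField m ℚ))) m :=
    hζ.map_of_injective f.injective
  obtain ⟨i, hi, hc, he⟩ := (Complex.isPrimitiveRoot_iff _ m hm).mp h1
  refine ⟨ZMod.unitOfCoprime i hc, ?_⟩
  rw [← he, ZMod.coe_unitOfCoprime, ZMod.val_natCast, Nat.mod_eq_of_lt hi]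
  congr 1
  ring

/-- the unit is unique -/
theorem TYP_unit_unique (m : ℕ) [NeZero m] {t t' : (ZMod m)ˣ}
    (h : Complex.exp (2 * Real.pi * Complex.I * ((t : ZMod m).val : ℂ) / (m : ℂ)) =
      Complex.exp (2 * Real.pi * Complex.I * ((t' : ZMod m).val : ℂ) / (m : ℂ))) : t = t' := by
  have hm : m ≠ 0 := NeZero.ne m
  have hp := Complex.isPrimitiveRoot_exp m hm
  have e : ∀ s : ℕ, Complex.exp (2 * Real.pi * Complex.I * (s : ℂ) / (m : ℂ)) =
      Complex.exp (2 * Real.pi * Complex.I / (m : ℂ)) ^ s := by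
    intro s
    rw [← Complex.exp_nat_mul]
    congr 1
    ring
  rw [e, e] at h
  have h1 := hp.pow_inj (ZMod.val_lt _) (ZMod.val_lt _) h
  exact Units.ext (ZMod.val_injective m h1)

theorem TYP_mem_ftype (m : ℕ) [NeZero m] (x y z : ZMod m) {f : CyclotomicField m ℚ →+* ℂ}
    {t : (ZMod m)ˣ} (h : f (IsCyclotomicExtension.zeta m ℚ (CyclotomicField m ℚ)) =
      Complex.exp (2 * Real.pi * Complex.I * ((t : ZMod m).val : ℂ) / (m : ℂ))) :
    f ∈ ftype m x y z ↔
      (((t⁻¹ : (ZMod m)ˣ) : ZMod m) * x).val + (((t⁻¹ : (ZMod m)ˣ) : ZMod m) * y).val +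
        (((t⁻¹ : (ZMod m)ˣ) : ZMod m) * z).val = m := by
  constructor
  · rintro ⟨t', ht', hs⟩
    have : t = t' := TYP_unit_unique m (h.symm.trans ht')
    rw [this]; exact hs
  · intro hs
    exact ⟨t, h, hs⟩

theorem TYP : TYP_stmt := by
  intro m _ k a ha h0
  classical
  have hm : 0 < m := Nat.pos_of_ne_zero (NeZero.ne m)
  -- for matching `f` and `t` the two conditions are equivalent
  have key : ∀ (f : CyclotomicField m ℚ →+* ℂ) (t : (ZMod m)ˣ),
      f (IsCyclotomicExtension.zeta m ℚ (CyclotomicField m ℚ)) =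
        Complex.exp (2 * Real.pi * Complex.I * ((t : ZMod m).val : ℂ) / (m : ℂ)) →
      (2 * ∑ i, (((t⁻¹ : (ZMod m)ˣ) : ZMod m) * a i).val = k * m ↔
        2 * Multiset.countP (fun P => f ∈ P) (types m a) = Multiset.card (types m a)) := by
    intro f t hft
    have hc := TYP_count a ha h0 t⁻¹
    have h1 : Multiset.card (types m a) = (Finset.univ.filter
      (fun j : Fin k => psum a j ≠ 0 ∧ psum a ((j : ℕ) + 1) ≠ 0)).card := by
      unfold types
      rw [Multiset.card_map]
      rfl
    have h2 : Multiset.countP (fun P => f ∈ P) (types m a) =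
      ((Finset.univ.filter (fun j : Fin k => psum a j ≠ 0 ∧ psum a ((j : ℕ) + 1) ≠ 0)).filter
        (fun j : Fin k => (((t⁻¹ : (ZMod m)ˣ) : ZMod m) * psum a j).val +
          (((t⁻¹ : (ZMod m)ˣ) : ZMod m) * a j).val +
          (((t⁻¹ : (ZMod m)ˣ) : ZMod m) * (-(psum a ((j : ℕ) + 1)))).val = m)).card := by
      unfold types
      rw [Multiset.countP_map]
      rw [← Finset.filter_val, ← Finset.card_def]
      congr 1
      apply Finset.filter_congr
      intro j _
      exact TYP_mem_ftype m _ _ _ hft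
    rw [h1, h2]
    set S := ∑ i, (((t⁻¹ : (ZMod m)ˣ) : ZMod m) * a i).val
    set cJ := (Finset.univ.filter
      (fun j : Fin k => psum a j ≠ 0 ∧ psum a ((j : ℕ) + 1) ≠ 0)).card
    set c := ((Finset.univ.filter (fun j : Fin k => psum a j ≠ 0 ∧ psum a ((j : ℕ) + 1) ≠ 0)).filter
        (fun j : Fin k => (((t⁻¹ : (ZMod m)ˣ) : ZMod m) * psum a j).val +
          (((t⁻¹ : (ZMod m)ˣ) : ZMod m) * a j).val +
          (((t⁻¹ : (ZMod m)ˣ) : ZMod m) * (-(psum a ((j : ℕ) + 1)))).val = m)).card
    have hc2 : 2 * S + m * (2 * c) = k * m + m * cJ := by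
      have : 2 * S + m * (2 * c) = 2 * S + 2 * m * c := by ring
      rw [this, hc]; ring
    constructor
    · intro hS
      have h3 : m * (2 * c) = m * cJ := by omega
      exact Nat.eq_of_mul_eq_mul_left hm h3
    · intro hS
      rw [hS] at hc2
      omega
  constructor
  · intro h f
    obtain ⟨t, ht⟩ := TYP_exists_unit m f
    exact (key f t ht).mp (h t⁻¹)
  · intro h t
    obtain ⟨f, hf⟩ := TYP_exists_emb m t⁻¹
    have h1 := (key f t⁻¹ hf).mpr (h f)
    rw [inv_inv] at h1
    exact h1

end BQ
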